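import Pool.Agent.Q66.RX.Stm

set_option autoImplicit false

/-! JOB XR2 of project RX (helper66): reflexive groups satisfy `R2`. -/

namespace Pool.Agent.Q65.RX

open Pool.Agent.Q66.RX
open Topology Filter Set Uniformity

/-- neighbourhoods of one in the dual -/
theorem nb {A : Type} [CommGroup A] [TopologicalSpace A] [IsTopologicalGroup A]
    {W : Set (PontryaginDual A)} (hW : W ∈ 𝓝 (1 : PontryaginDual A)) :
    ∃ K : Set A, IsCompact K ∧ ∃ V ∈ 𝓝 (1 : Circle), ∀ χ : PontryaginDual A,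
      (∀ a ∈ K, χ a ∈ V) → χ ∈ W := by
  have h1 : 𝓝 (1 : A →ₜ* Circle) = comap ContinuousMonoidHom.toContinuousMap
      (𝓝 (ContinuousMonoidHom.toContinuousMap (1 : A →ₜ* Circle))) :=
    (ContinuousMonoidHom.isInducing_toContinuousMap A Circle).nhds_eq_comap _
  have hW' : W ∈ comap ContinuousMonoidHom.toContinuousMap
      (𝓝 (ContinuousMonoidHom.toContinuousMap (1 : A →ₜ* Circle))) := by
    rw [← h1]; exact hW
  obtain ⟨U, hU, hUW⟩ := mem_comap.1 hW'
  obtain ⟨⟨K, E⟩, ⟨hK, hE⟩, hKE⟩ :=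
    (nhds_basis_uniformity' ContinuousMap.hasBasis_compactConvergenceUniformity).mem_iff.1 hU
  refine ⟨K, hK, {z | ((1 : Circle), z) ∈ E}, UniformSpace.ball_mem_nhds _ hE, fun χ hχ => ?_⟩
  refine hUW (show ContinuousMonoidHom.toContinuousMap χ ∈ U from hKE ?_)
  intro a ha
  exact hχ a ha

theorem t_XR2 (hC : S_CIR) : S_XR2 := by
  intro X _ _ _ ⟨e, he⟩ W hW
  have he1 : e 1 = 1 := by
    refine DFunLike.ext _ _ fun χ => ?_
    rw [he]
    exact map_one χ
  have hW' : e '' W ∈ 𝓝 (1 : PontryaginDual (PontryaginDual X)) := by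
    rw [← he1]
    exact e.isOpenMap.image_mem_nhds hW
  obtain ⟨Q, hQ, V, hV, hQV⟩ := nb hW'
  obtain ⟨n, hn⟩ := hC V hV
  refine ⟨⋃ k ∈ Finset.range (n + 1), (fun ψ : PontryaginDual X => ψ ^ (2 ^ k)) '' Q,
    (Finset.range (n + 1)).isCompact_biUnion fun k _ => hQ.image (continuous_pow _), fun g hg => ?_⟩
  have h2 : e g ∈ e '' W := by
    refine hQV (e g) fun ψ hψ => ?_
    rw [he]
    refine hn (ψ g) fun k hk => ?_
    have h3 := hg (ψ ^ (2 ^ k)) (mem_iUnion₂.2 ⟨k, Finset.mem_range.2 (by omega),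
      mem_image_of_mem _ hψ⟩)
    have h4 : (ψ ^ (2 ^ k)) g = (ψ g) ^ (2 ^ k) := by
      generalize 2 ^ k = m
      induction m with
      | zero => rw [pow_zero, pow_zero]; rfl
      | succ m ih => rw [pow_succ, pow_succ, ← ih]; rfl
    rwa [h4] at h3
  obtain ⟨w, hw, hwg⟩ := h2
  rwa [← e.injective hwg]

end Pool.Agent.Q65.RX
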